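import Pool.Agent.H51.MF.Base

/-! # FINV: the dimension vectors of submodules and quotients form finite sets. -/

set_option linter.style.haveILetI false
set_option linter.unusedSectionVars false
set_option autoImplicit false

namespace Pool.Agent.H51.MF

open Module Pool.Agent.H51.T2

universe u v

theorem s_FINV (K : Type v) [Field K] (A : Type u) [Ring A] [Algebra K A] : S_FINV K A := by
  intro c X
  have h1 : ∀ S : Submodule A X, c.v (X.sub S) ∈ Set.Icc (0 : Fin c.n → ℤ) (c.v X) ∧
      c.v (X.quot S) ∈ Set.Icc (0 : Fin c.n → ℤ) (c.v X) := by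
    intro S
    have h := v_add c X S
    refine ⟨⟨fun i => v_nonneg c _ i, fun i => ?_⟩, ⟨fun i => v_nonneg c _ i, fun i => ?_⟩⟩
    · have h2 := congrFun h i
      have h3 := v_nonneg c (X.quot S) i
      rw [Pi.add_apply] at h2
      linarith
    · have h2 := congrFun h i
      have h3 := v_nonneg c (X.sub S) i
      rw [Pi.add_apply] at h2
      linarith
  constructor
  · refine (Set.finite_Icc (0 : Fin c.n → ℤ) (c.v X)).subset ?_
    rintro w ⟨S, rfl⟩
    exact (h1 S).1
  · refine (Set.finite_Icc (0 : Fin c.n → ℤ) (c.v X)).subset ?_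
    rintro w ⟨S, rfl⟩
    exact (h1 S).2

end Pool.Agent.H51.MF
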